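import Pool.Agent.helper16.LW.Spec

set_option autoImplicit false

open Complex MeasureTheory

namespace Pool.Agent.LW

open Pool.Agent.ZD Pool.Agent.helper84.DM Pool.Agent.helper78.ED Pool.Agent.DH

theorem MVF_log (x y : ℝ) (hx : 0 < x) (hxy : x ≤ y) : (y - x) / y ≤ Real.log y - Real.log x := by
  have hy : 0 < y := lt_of_lt_of_le hx hxy
  have h := Real.log_le_sub_one_of_pos (div_pos hx hy)
  rw [Real.log_div hx.ne' hy.ne'] at h
  have h2 : (y - x) / y = 1 - x / y := by
    field_simp
  rw [h2]
  linarith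

theorem MVF_kap (x y : ℝ) (h : |x| ≤ |y|) : kap y ≤ kap x := by
  unfold kap
  have h1 : x ^ 2 ≤ y ^ 2 := sq_le_sq.2 h
  exact one_div_le_one_div_of_le (by positivity) (by linarith)

theorem MVF (hF : FEJ_stmt) (hR : RF0_stmt) (hK : KSM_stmt) : MVF_stmt := by
  obtain ⟨-, hw, C0, hC0, hFe⟩ := hF
  refine ⟨17 * C0, by positivity, ?_⟩
  intro J N a hN hNJ ha
  have hJ : 1 ≤ J := le_trans hN hNJ
  have hNr : (1 : ℝ) ≤ N := by exact_mod_cast hN
  have hJr : (1 : ℝ) ≤ J := by exact_mod_cast hJ
  have hNJr : (N : ℝ) ≤ J := by exact_mod_cast hNJ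
  have h1 : ∑ j ∈ IJ J, F0 J N a j ≤ ‖rF J (F0 J N a) 0‖ := by
    have : rF J (F0 J N a) 0 = ((∑ j ∈ IJ J, F0 J N a j : ℝ) : ℂ) := by
      unfold rF
      simp
    rw [this, Complex.norm_real]
    exact le_abs_self _
  have h2 := hR J N a 0 hJ ha
  refine h1.trans (h2.trans ?_)
  have h3 : ∀ n ∈ Finset.Ioc N (2 * N), ∑ n' ∈ Finset.Ioc N (2 * N),
      Fej J (0 - (Real.log n - Real.log n')) ≤ 17 * C0 * J := by
    intro n hn
    have hn' := Finset.mem_Ioc.1 hn
    have hn1 : (N : ℝ) < n := by exact_mod_cast hn'.1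
    have hn2 : (n : ℝ) ≤ 2 * N := by exact_mod_cast hn'.2
    have h4 : ∀ m ∈ Finset.Ioc N (2 * N), Fej J (0 - (Real.log n - Real.log m)) ≤
        C0 * J * kap ((J : ℝ) / (2 * N) * (((n : ℤ) - (m : ℤ) : ℤ) : ℝ)) := by
      intro m hm
      have hm' := Finset.mem_Ioc.1 hm
      have hm1 : (N : ℝ) < m := by exact_mod_cast hm'.1
      have hm2 : (m : ℝ) ≤ 2 * N := by exact_mod_cast hm'.2
      have hlow : |(n : ℝ) - m| / (2 * N) ≤ |0 - (Real.log n - Real.log m)| := by
        rcases le_total (n : ℝ) m with h | h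
        · have := MVF_log n m (by linarith) h
          rw [abs_of_nonpos (by linarith)]
          have h5 : (-((n : ℝ) - m)) / (2 * N) ≤ ((m : ℝ) - n) / m := by
            rw [neg_sub]
            exact div_le_div_of_nonneg_left (by linarith) (by linarith) hm2
          refine h5.trans (this.trans ?_)
          refine le_trans (le_of_eq ?_) (le_abs_self _)
          ring
        · have := MVF_log m n (by linarith) h
          rw [abs_of_nonneg (by linarith)]
          have h5 : ((n : ℝ) - m) / (2 * N) ≤ ((n : ℝ) - m) / n :=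
            div_le_div_of_nonneg_left (by linarith) (by linarith) hn2
          refine h5.trans (this.trans ?_)
          refine le_trans (le_of_eq ?_) (neg_le_abs _)
          ring
      have hup : |0 - (Real.log n - Real.log m)| ≤ 57 / 10 := by
        have hl2 : Real.log 2 ≤ 1 := by
          have := Real.log_le_sub_one_of_pos (show (0 : ℝ) < 2 by norm_num)
          linarith
        have e1 : Real.log n ≤ Real.log 2 + Real.log m := by
          rw [← Real.log_mul (by norm_num) (by linarith)]
          exact Real.log_le_log (by linarith) (by linarith)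
        have e2 : Real.log m ≤ Real.log 2 + Real.log n := by
          rw [← Real.log_mul (by norm_num) (by linarith)]
          exact Real.log_le_log (by linarith) (by linarith)
        rw [abs_le]
        constructor <;> linarith
      refine (hFe J _ hJ hup).trans ?_
      refine mul_le_mul_of_nonneg_left ?_ (by positivity)
      apply MVF_kap
      rw [abs_mul, abs_mul, abs_of_nonneg (by positivity : (0 : ℝ) ≤ (J : ℝ) / (2 * N)),
        abs_of_nonneg (by positivity : (0 : ℝ) ≤ (J : ℝ))]
      push_cast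
      calc (J : ℝ) / (2 * N) * |(n : ℝ) - m| = J * (|(n : ℝ) - m| / (2 * N)) := by ring
        _ ≤ J * |0 - (Real.log n - Real.log m)| := mul_le_mul_of_nonneg_left hlow (by positivity)
    refine (Finset.sum_le_sum h4).trans ?_
    rw [← Finset.mul_sum]
    have hinj : Set.InjOn (fun m : ℕ => (n : ℤ) - (m : ℤ)) (Finset.Ioc N (2 * N) : Set ℕ) := by
      intro x _ y _ hxy
      simp only at hxy
      omega
    have h5 : ∑ m ∈ Finset.Ioc N (2 * N), kap ((J : ℝ) / (2 * N) * (((n : ℤ) - (m : ℤ) : ℤ) : ℝ)) =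
        ∑ k ∈ (Finset.Ioc N (2 * N)).image (fun m : ℕ => (n : ℤ) - (m : ℤ)),
          kap ((J : ℝ) / (2 * N) * (k : ℝ)) := by
      rw [Finset.sum_image hinj]
    rw [h5]
    have hc : (1 : ℝ) / 2 ≤ (J : ℝ) / (2 * N) := by
      rw [div_le_div_iff₀ (by norm_num) (by positivity)]
      linarith
    have h6 := (hK ((J : ℝ) / (2 * N)) ((Finset.Ioc N (2 * N)).image
      (fun m : ℕ => (n : ℤ) - (m : ℤ))) (by positivity)).1
    have h7 : 4 / ((J : ℝ) / (2 * N)) ^ 2 ≤ 16 := by
      rw [div_le_iff₀ (by positivity)]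
      nlinarith
    calc C0 * J * _ ≤ C0 * J * 17 := mul_le_mul_of_nonneg_left (by linarith) (by positivity)
      _ = 17 * C0 * J := by ring
  refine (Finset.sum_le_sum h3).trans ?_
  rw [Finset.sum_const, Nat.card_Ioc, nsmul_eq_mul]
  have : ((2 * N - N : ℕ) : ℝ) = N := by
    rw [show 2 * N - N = N by omega]
  rw [this]
  apply le_of_eq
  ring

end Pool.Agent.LW
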